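import Pool.Agent.Helper6.LPA.St

set_option autoImplicit false

noncomputable section

namespace Pool.Agent.Helper21.LPA

open Finset
open Pool.Agent.Helper98.LM (QQ)
open Pool.Agent.Helper6.LP
open Pool.Agent.Helper6.LPA

open Classical in
private lemma core (F : Finset (Finset ℕ)) (N : Finset ℕ → Finset ℕ → ℝ) (g g' : Finset ℕ → ℝ) (V e R : ℝ)
    (hV : 0 ≤ V) (he : 0 ≤ e) (hR : 0 ≤ R) (hg : ∀ T ∈ F, 0 ≤ g T) (hg' : ∀ T ∈ F, 0 ≤ g' T)
    (h1 : ∀ T ∈ F, ∀ T' ∈ F, Disjoint T T' → |N T T' - V * (g T * g' T')| ≤ e * (V * (g T * g' T')) + R)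
    (h2 : ∀ T ∈ F, ∀ T' ∈ F, ¬ Disjoint T T' → N T T' = 0) :
    ∑ T ∈ F, ∑ T' ∈ F, (-1 : ℝ) ^ T.card * (-1 : ℝ) ^ T'.card * N T T' ≤
      V * ((∑ T ∈ F, (-1 : ℝ) ^ T.card * g T) * (∑ T ∈ F, (-1 : ℝ) ^ T.card * g' T) +
        ∑ T ∈ F, ∑ T' ∈ F.filter (fun T' => ¬ Disjoint T T'), g T * g' T' +
        e * ((∑ T ∈ F, g T) * ∑ T ∈ F, g' T)) + (F.card : ℝ) * (F.card * R) := by
  have key : ∀ T ∈ F, ∀ T' ∈ F, (-1 : ℝ) ^ T.card * (-1 : ℝ) ^ T'.card * N T T' ≤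
      V * ((-1 : ℝ) ^ T.card * g T * ((-1 : ℝ) ^ T'.card * g' T')) +
        V * (if ¬ Disjoint T T' then g T * g' T' else 0) + V * (e * (g T * g' T')) + R := by
    intro T hT T' hT'
    have hgg : 0 ≤ g T * g' T' := mul_nonneg (hg T hT) (hg' T' hT')
    have hVg : 0 ≤ V * (g T * g' T') := mul_nonneg hV hgg
    have heg : 0 ≤ e * (V * (g T * g' T')) := mul_nonneg he hVg
    have hs : (-1 : ℝ) ^ T.card * (-1 : ℝ) ^ T'.card = 1 ∨ (-1 : ℝ) ^ T.card * (-1 : ℝ) ^ T'.card = -1 := by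
      rcases neg_one_pow_eq_or ℝ T.card with h | h <;> rcases neg_one_pow_eq_or ℝ T'.card with h' | h' <;> simp [h, h']
    have e1 : V * ((-1 : ℝ) ^ T.card * g T * ((-1 : ℝ) ^ T'.card * g' T')) =
      ((-1 : ℝ) ^ T.card * (-1 : ℝ) ^ T'.card) * (V * (g T * g' T')) := by ring
    have e2 : V * (e * (g T * g' T')) = e * (V * (g T * g' T')) := by ring
    rw [e1, e2]
    by_cases hd : Disjoint T T'
    · have h3 := h1 T hT T' hT' hd
      rw [abs_le] at h3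
      rw [if_neg (not_not.mpr hd), mul_zero]
      rcases hs with h | h <;> rw [h] <;> linarith [h3.1, h3.2]
    · have h3 := h2 T hT T' hT' hd
      rw [if_pos hd, h3, mul_zero]
      rcases hs with h | h <;> rw [h] <;> linarith
  refine le_trans (Finset.sum_le_sum fun T hT => Finset.sum_le_sum fun T' hT' => key T hT T' hT') (le_of_eq ?_)
  rw [mul_add, mul_add, Finset.sum_mul_sum, Finset.sum_mul_sum]
  simp only [Finset.sum_add_distrib, Finset.mul_sum, Finset.sum_filter, Finset.sum_const, nsmul_eq_mul]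

open Classical in
private lemma expand (F : Finset (Finset ℕ)) (S : Finset ℕ) (n : ℕ → ℤ) (y y' : ℤ) (A A' : ℕ → Prop) :
    ∑ m ∈ S.filter (fun m : ℕ => A m ∧ A' m), WS F (n m) y * WS F (n m) y' =
    ∑ T ∈ F, ∑ T' ∈ F, (-1 : ℝ) ^ T.card * (-1 : ℝ) ^ T'.card *
      ((S.filter (fun m : ℕ => (A m ∧ Dv T (n m) y) ∧ A' m ∧ Dv T' (n m) y')).card : ℝ) := by
  unfold WS
  simp only [Finset.sum_mul_sum]
  rw [Finset.sum_comm]
  refine Finset.sum_congr rfl fun T _ => ?_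
  rw [Finset.sum_comm]
  refine Finset.sum_congr rfl fun T' _ => ?_
  rw [Finset.card_filter, Nat.cast_sum, Finset.sum_filter, Finset.mul_sum]
  refine Finset.sum_congr rfl fun m _ => ?_
  by_cases h1 : A m <;> by_cases h2 : A' m <;> by_cases h3 : Dv T (n m) y <;> by_cases h4 : Dv T' (n m) y' <;>
    simp [h1, h2, h3, h4]

theorem hOFF (hP : StPRQ) (hG : StGGL) : StOFF := by
  classical
  obtain ⟨C, hC1, hC⟩ := hG
  refine ⟨C ^ 3 + C ^ 4, ?_, ?_⟩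
  · have h3 : 1 ≤ C ^ 3 := one_le_pow₀ hC1
    have h4 : 1 ≤ C ^ 4 := one_le_pow₀ hC1
    linarith
  intro η B B₁ hη hη1 hB hSv p P a y y' M z w F hp hpz hzw hwz hPl hy hy' hD1 hD2 hBz hW
  have hz : 1 ≤ z := by omega
  have hw1 : z ≤ w := le_trans (Nat.le_self_pow (by omega) z) hzw
  obtain ⟨h1, h2⟩ := hC p P a z w B B₁ F hp hpz hw1 hB hwz hPl hW
  obtain ⟨a1, a2, a3, a4, a5, a6⟩ := h1 y hy
  obtain ⟨b1, b2, b3, b4, b5, b6⟩ := h1 y' hy'
  have nd := h2 y y' hy hy'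
  obtain ⟨w1, w2, w3, w4⟩ := hW
  have hR := fun T hT T' hT' => hP η 12 B hSv p P a y y' z w M T hT T' hT' hp hpz hPl hy hy' hD1 hD2
  obtain ⟨-, -, v1, v2⟩ := hR ∅ (Finset.empty_subset _) ∅ (Finset.empty_subset _)
  have hBr : (1 : ℝ) ≤ B := by exact_mod_cast hB
  have hB0 : (0 : ℝ) < B := by linarith
  have hC0 : 0 < C := by linarith
  have hw1r : (1 : ℝ) ≤ w := by exact_mod_cast le_trans hz hw1
  have hzr : (1 : ℝ) ≤ z := by exact_mod_cast hz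
  have hM0 : (0 : ℝ) ≤ M := Nat.cast_nonneg _
  rw [expand F (Icc 1 M) (fun m : ℕ => (a : ℤ) + P * m) y y' (fun m : ℕ => Sf p z ((a : ℤ) + P * m) y)
    (fun m : ℕ => Sf p z ((a : ℤ) + P * m) y')]
  have hRR : ∀ T ∈ F, ∀ T' ∈ F, (z : ℝ) ^ B * ((∏ l ∈ T, (l : ℝ)) * ∏ l ∈ T', (l : ℝ)) ≤ (w : ℝ) ^ (2 * B₁ + 1) := by
    intro T hT T' hT'
    have p1 : ∏ l ∈ T, (l : ℝ) ≤ (w : ℝ) ^ B₁ := by
      have h := (Nat.cast_le (α := ℝ)).mpr (w1 T hT).2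
      rwa [Nat.cast_prod, Nat.cast_pow] at h
    have p2 : ∏ l ∈ T', (l : ℝ) ≤ (w : ℝ) ^ B₁ := by
      have h := (Nat.cast_le (α := ℝ)).mpr (w1 T' hT').2
      rwa [Nat.cast_prod, Nat.cast_pow] at h
    have p3 : (z : ℝ) ^ B ≤ (w : ℝ) := by exact_mod_cast hzw
    calc (z : ℝ) ^ B * ((∏ l ∈ T, (l : ℝ)) * ∏ l ∈ T', (l : ℝ)) ≤ w * ((w : ℝ) ^ B₁ * (w : ℝ) ^ B₁) := by
          gcongr
      _ = (w : ℝ) ^ (2 * B₁ + 1) := by ring
  have hc := core F (fun T T' => (((Icc 1 M).filter (fun m : ℕ => (Sf p z ((a : ℤ) + P * m) y ∧ Dv T ((a : ℤ) + P * m) y) ∧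
      Sf p z ((a : ℤ) + P * m) y' ∧ Dv T' ((a : ℤ) + P * m) y')).card : ℝ)) (gg P a y) (gg P a y')
      (M * VD p z P a y y') (η / (B : ℝ) ^ 12) ((w : ℝ) ^ (2 * B₁ + 1)) (mul_nonneg hM0 v1) (by positivity) (by positivity)
      a4 b4 (by
        intro T hT T' hT' hd
        have h3 := (hR T (w1 T hT).1 T' (w1 T' hT').1).1 hd
        have h4 := hRR T hT T' hT'
        have e1 : (M : ℝ) * VD p z P a y y' * (gg P a y T * gg P a y' T') = M * (VD p z P a y y' * (gg P a y T * gg P a y' T')) := by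
          ring
        rw [e1]
        linarith) (by
        intro T hT T' hT' hd
        have h3 := (hR T (w1 T hT).1 T' (w1 T' hT').1).2.1 hd
        have h4 : (Icc 1 M).filter (fun m : ℕ => (Sf p z ((a : ℤ) + P * m) y ∧ Dv T ((a : ℤ) + P * m) y) ∧
            Sf p z ((a : ℤ) + P * m) y' ∧ Dv T' ((a : ℤ) + P * m) y') = ∅ := by
          apply Finset.eq_empty_of_forall_notMem
          intro m hm
          rw [Finset.mem_filter] at hm
          have h5 : m ∈ (Icc 1 M).filter (fun m : ℕ => Dv T ((a : ℤ) + P * m) y ∧ Dv T' ((a : ℤ) + P * m) y') := by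
            rw [Finset.mem_filter]
            exact ⟨hm.1, hm.2.1.2, hm.2.2.2⟩
          rw [h3] at h5
          exact absurd h5 (Finset.notMem_empty m)
        show ((Finset.card _ : ℕ) : ℝ) = 0
        rw [h4]
        simp)
  refine le_trans hc ?_
  -- the sums
  set G := ∑ T ∈ F, (-1 : ℝ) ^ T.card * gg P a y T with hGdef
  set G' := ∑ T ∈ F, (-1 : ℝ) ^ T.card * gg P a y' T with hGdef'
  have hGG : GG F P a y = G := rfl
  have hGG' : GG F P a y' = G' := rfl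
  rw [hGG] at a2
  rw [hGG'] at b2
  have hG0 : 0 < G := by
    by_contra hcon
    push Not at hcon
    have : C * (B : ℝ) ^ 3 * G ≤ 0 := mul_nonpos_of_nonneg_of_nonpos (by positivity) hcon
    linarith
  have hG0' : 0 < G' := by
    by_contra hcon
    push Not at hcon
    have : C * (B : ℝ) ^ 3 * G' ≤ 0 := mul_nonpos_of_nonneg_of_nonpos (by positivity) hcon
    linarith
  have hB6 : (0 : ℝ) < (B : ℝ) ^ 6 := by positivity
  have hprod : 1 ≤ C ^ 2 * (B : ℝ) ^ 6 * (G * G') := by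
    have h3 : 1 * 1 ≤ (C * (B : ℝ) ^ 3 * G) * (C * (B : ℝ) ^ 3 * G') := mul_le_mul a2 b2 (by norm_num) (by linarith)
    calc (1 : ℝ) ≤ (C * (B : ℝ) ^ 3 * G) * (C * (B : ℝ) ^ 3 * G') := by linarith
      _ = _ := by ring
  have hinv : 1 / (B : ℝ) ^ 6 ≤ C ^ 2 * (G * G') := by
    rw [div_le_iff₀ hB6]
    calc (1 : ℝ) ≤ C ^ 2 * (B : ℝ) ^ 6 * (G * G') := hprod
      _ = _ := by ring
  have hnd : ∑ T ∈ F, ∑ T' ∈ F.filter (fun T' => ¬ Disjoint T T'), gg P a y T * gg P a y' T' ≤ C ^ 3 * η * (G * G') := by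
    refine le_trans nd ?_
    have h3 : C * (B : ℝ) ^ 6 / z ≤ C * η * (1 / (B : ℝ) ^ 6) := by
      rw [div_le_iff₀ (by linarith : (0 : ℝ) < z)]
      have h4 : C * η * (1 / (B : ℝ) ^ 6) * z = C * (1 / (B : ℝ) ^ 6) * (η * z) := by ring
      rw [h4]
      calc C * (B : ℝ) ^ 6 = C * (1 / (B : ℝ) ^ 6) * (B : ℝ) ^ 12 := by
            field_simp
        _ ≤ _ := by gcongr
    calc C * (B : ℝ) ^ 6 / z ≤ C * η * (1 / (B : ℝ) ^ 6) := h3
      _ ≤ C * η * (C ^ 2 * (G * G')) := by gcongr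
      _ = _ := by ring
  have hsum : η / (B : ℝ) ^ 12 * ((∑ T ∈ F, gg P a y T) * ∑ T ∈ F, gg P a y' T) ≤ C ^ 4 * η * (G * G') := by
    have s1 : 0 ≤ ∑ T ∈ F, gg P a y T := Finset.sum_nonneg a4
    have s2 : 0 ≤ ∑ T ∈ F, gg P a y' T := Finset.sum_nonneg b4
    calc η / (B : ℝ) ^ 12 * ((∑ T ∈ F, gg P a y T) * ∑ T ∈ F, gg P a y' T)
        ≤ η / (B : ℝ) ^ 12 * ((C * (B : ℝ) ^ 3) * (C * (B : ℝ) ^ 3)) := by gcongr
      _ = C ^ 2 * η * (1 / (B : ℝ) ^ 6) := by field_simp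
      _ ≤ C ^ 2 * η * (C ^ 2 * (G * G')) := by gcongr
      _ = _ := by ring
  have hcard : (F.card : ℝ) * (F.card * (w : ℝ) ^ (2 * B₁ + 1)) ≤ (w : ℝ) ^ (4 * B₁ + 1) := by
    have c1 : (F.card : ℝ) ≤ (w : ℝ) ^ B₁ := by exact_mod_cast w2
    calc (F.card : ℝ) * (F.card * (w : ℝ) ^ (2 * B₁ + 1)) ≤ (w : ℝ) ^ B₁ * ((w : ℝ) ^ B₁ * (w : ℝ) ^ (2 * B₁ + 1)) := by
          gcongr
      _ = (w : ℝ) ^ (4 * B₁ + 1) := by ring
  have hmain : (M : ℝ) * VD p z P a y y' * (G * G' + ∑ T ∈ F, ∑ T' ∈ F.filter (fun T' => ¬ Disjoint T T'), gg P a y T * gg P a y' T' +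
      η / (B : ℝ) ^ 12 * ((∑ T ∈ F, gg P a y T) * ∑ T ∈ F, gg P a y' T)) ≤
      (1 + (C ^ 3 + C ^ 4) * η) * (M * (VW F p z P a y * VW F p z P a y') *
        ∏ l ∈ (QQ p z).filter (fun l => l ∣ DD y y'), (1 + 8 / (l : ℝ))) := by
    calc (M : ℝ) * VD p z P a y y' * (G * G' + ∑ T ∈ F, ∑ T' ∈ F.filter (fun T' => ¬ Disjoint T T'), gg P a y T * gg P a y' T' +
          η / (B : ℝ) ^ 12 * ((∑ T ∈ F, gg P a y T) * ∑ T ∈ F, gg P a y' T))
        ≤ (M : ℝ) * VD p z P a y y' * (G * G' + C ^ 3 * η * (G * G') + C ^ 4 * η * (G * G')) := by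
          gcongr
      _ = (1 + (C ^ 3 + C ^ 4) * η) * (M * VD p z P a y y' * (G * G')) := by ring
      _ ≤ (1 + (C ^ 3 + C ^ 4) * η) * (M * (VV p z P a y * VV p z P a y' *
            ∏ l ∈ (QQ p z).filter (fun l => l ∣ DD y y'), (1 + 8 / (l : ℝ))) * (G * G')) := by
          gcongr
      _ = _ := by
          unfold VW
          rw [hGG, hGG']
          ring
  linarith

end Pool.Agent.Helper21.LPA
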